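import Mathlib

set_option autoImplicit false

namespace Pool.Agent.Results.MP_5f6a82_al.Neg

open Function Polynomial

def LSRC (A : Type*) [Ring A] : Prop :=
  ∀ n, 1 ≤ n → ∀ f : (Fin (n + 1) → A) →ₗ[A] (Fin n → A), ¬ Injective f

abbrev F := FreeAlgebra ℤ ℕ

def y (n : ℕ) : F := FreeAlgebra.ι ℤ n

def sg : F →ₐ[ℤ] F := FreeAlgebra.lift ℤ fun n => Nat.casesOn n 0 y

def ep : F →ₐ[ℤ] ℤ := FreeAlgebra.lift ℤ fun _ => 0

lemma sg_surj : Surjective sg := by
  intro r
  induction r using FreeAlgebra.induction with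
  | grade0 c => exact ⟨algebraMap ℤ F c, sg.commutes c⟩
  | grade1 n => exact ⟨y (n + 1), by simp [sg, y]⟩
  | mul a b h1 h2 => obtain ⟨a, rfl⟩ := h1; obtain ⟨b, rfl⟩ := h2; exact ⟨a * b, map_mul _ _ _⟩
  | add a b h1 h2 => obtain ⟨a, rfl⟩ := h1; obtain ⟨b, rfl⟩ := h2; exact ⟨a + b, map_add _ _ _⟩

lemma sg_pow (r : F) : ∃ N, ∀ M, N ≤ M → (sg.toRingHom ^ M) r = (ep r : F) := by
  induction r using FreeAlgebra.induction with
  | grade0 c => exact ⟨0, fun M _ => by simp⟩
  | grade1 n =>
    refine ⟨n + 1, ?_⟩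
    induction n with
    | zero => rintro (_ | M) h; · omega
              simp [pow_succ, sg, ep]
    | succ n ih =>
      rintro (_ | M) h; · omega
      have := ih M (by omega)
      simp_all [pow_succ, sg, ep, y]
  | mul a b h1 h2 =>
    obtain ⟨N, h1⟩ := h1; obtain ⟨N', h2⟩ := h2
    exact ⟨N + N', fun M h => by rw [map_mul, h1 M (by omega), h2 M (by omega)]; simp⟩
  | add a b h1 h2 =>
    obtain ⟨N, h1⟩ := h1; obtain ⟨N', h2⟩ := h2
    exact ⟨N + N', fun M h => by rw [map_add, h1 M (by omega), h2 M (by omega)]; simp⟩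

def ps (k : ℕ) : F →ₐ[ℤ] Matrix (Fin 2) (Fin 2) F :=
  FreeAlgebra.lift ℤ fun n => !![y n, if n = k then 1 else 0; 0, 0]

lemma ps_00 (k : ℕ) (r : F) : ps k r 0 0 = r ∧ ps k r 1 0 = 0 := by
  induction r using FreeAlgebra.induction with
  | grade0 c => rw [AlgHom.commutes]; simp [Matrix.algebraMap_matrix_apply]
  | grade1 n => simp [ps, y]
  | mul a b h1 h2 => simp [Matrix.mul_apply, h1, h2]
  | add a b h1 h2 => simp [h1, h2]

lemma ps_01 (k n : ℕ) (r : F) : ps k (r * y n) 0 1 = if n = k then r else 0 := by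
  have : ps k (y n) = !![y n, if n = k then 1 else 0; 0, 0] := by simp [ps, y]
  simp [Matrix.mul_apply, ps_00, this]

lemma notF : ¬ LSRC F := by
  intro h
  refine h 1 le_rfl ⟨⟨fun v _ => v 0 * y 0 + v 1 * y 1, fun v w => ?_⟩, fun r v => ?_⟩ ?_
  · ext; simp [add_mul]; abel
  · ext; simp [mul_add, mul_assoc]
  · refine (injective_iff_map_eq_zero _).2 fun v hv => ?_
    have h1 : v 0 * y 0 + v 1 * y 1 = 0 := congrFun hv 0
    have h2 := fun k => congrArg (fun r => ps k r 0 1) h1
    simp only [map_add, Matrix.add_apply, ps_01, map_zero, Matrix.zero_apply] at h2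
    ext i
    fin_cases i
    · simpa using h2 0
    · simpa using h2 1

noncomputable instance act : MulSemiringAction (Multiplicative ℕ) F :=
  MulSemiringAction.compHom F (powersHom (F →+* F) sg.toRingHom)

abbrev S := SkewMonoidAlgebra F (Multiplicative ℕ)

noncomputable def io : F →+* S := SkewMonoidAlgebra.singleOneRingHom

noncomputable def xx : S := SkewMonoidAlgebra.single (Multiplicative.ofAdd 1) 1

lemma sm (n : Multiplicative ℕ) (r : F) : n • r = (sg.toRingHom ^ n.toAdd) r := rfl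

lemma xx_pow (n : ℕ) : xx ^ n = SkewMonoidAlgebra.single (Multiplicative.ofAdd n) 1 := by
  induction n with
  | zero => rfl
  | succ n ih => rw [pow_succ, ih, xx, SkewMonoidAlgebra.single_mul_single]; simp [ofAdd_add]

lemma io_xx (r : F) (n : ℕ) :
    io r * xx ^ n = SkewMonoidAlgebra.single (Multiplicative.ofAdd n) r := by
  rw [xx_pow]
  exact SkewMonoidAlgebra.single_mul_single.trans (by simp)

lemma xx_io (r : F) (n : ℕ) : xx ^ n * io r = io ((sg.toRingHom ^ n) r) * xx ^ n := by
  rw [io_xx, xx_pow]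
  exact SkewMonoidAlgebra.single_mul_single.trans (by simp [sm])

lemma ep_sg (n : ℕ) (r : F) : ep ((sg.toRingHom ^ n) r) = ep r := by
  induction n with
  | zero => rfl
  | succ n ih =>
    have : ep.comp sg = ep := by ext (_ | n) <;> simp [ep, sg, y]
    rw [pow_succ', ← ih]
    exact DFunLike.congr_fun this _

noncomputable def pi : S →+* ℤ[X] :=
  SkewMonoidAlgebra.liftNCRingHom (C.comp ep.toRingHom) (powersHom _ X) (by
    intro r n
    rw [mul_comm, sm]
    exact congrArg (fun c => _ * C c) (ep_sg _ _))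

lemma pi_xx : pi xx = X := (SkewMonoidAlgebra.liftNC_single _ _ _ _).trans (by simp)

lemma big (s : S) : ∃ N, ∀ M, N ≤ M → ∃ p : ℤ[X], xx ^ M * s = aeval xx p * xx ^ M := by
  induction s using SkewMonoidAlgebra.induction_on' with
  | single g r =>
    obtain ⟨N, h⟩ := sg_pow r
    refine ⟨N, fun M hM => ⟨C (ep r) * X ^ g.toAdd, ?_⟩⟩
    rw [← ofAdd_toAdd g, ← io_xx, ← mul_assoc, xx_io, h M hM]
    simp [mul_assoc, ← pow_add, add_comm]
  | add a b h1 h2 =>
    obtain ⟨N, h1⟩ := h1; obtain ⟨N', h2⟩ := h2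
    refine ⟨N + N', fun M h => ?_⟩
    obtain ⟨p, hp⟩ := h1 M (by omega)
    obtain ⟨q, hq⟩ := h2 M (by omega)
    exact ⟨p + q, by rw [mul_add, hp, hq, map_add, add_mul]⟩

lemma yesS : LSRC S := by
  intro n _ f hf
  choose N hN using big
  let m : Fin (n + 1) × Fin n → S := fun q => f (Pi.single q.1 1) q.2
  let M := Finset.univ.sup fun q => N (m q)
  choose p hp using fun q => hN (m q) M (Finset.le_sup (f := fun q => N (m q)) (Finset.mem_univ q))
  refine (strongRankCondition_iff_succ ℤ[X]).1 inferInstance n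
    (Matrix.of fun j i => p (j, i)).vecMulLinear ((injective_iff_map_eq_zero _).2 fun w hw => ?_)
  have h1 : (fun j => aeval xx (w j) * xx ^ M) = 0 := by
    apply hf
    rw [map_zero, pi_eq_sum_univ' (fun j => aeval xx (w j) * xx ^ M), map_sum]
    ext1 i
    have := congrArg (fun q => aeval xx q * xx ^ M) (congrFun hw i)
    simp only [Matrix.vecMulLinear_apply, Matrix.vecMul, dotProduct, Matrix.of_apply, map_sum,
      map_mul, Finset.sum_mul, mul_assoc, ← hp, Pi.zero_apply, map_zero, zero_mul] at this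
    simpa [mul_assoc, m] using this
  ext1 j
  have h2 := congrArg pi (congrFun h1 j)
  have h3 : pi (aeval xx (w j)) = w j := by
    induction w j using Polynomial.induction_on' with
    | add a b h1 h2 => rw [map_add, map_add, h1, h2]
    | monomial k c => simp [aeval_monomial, pi_xx, ← C_mul_X_pow_eq_monomial]
  rw [map_mul, map_pow, pi_xx, h3] at h2
  simpa using h2

theorem result : ∃ (R S : Type) (_ : Ring R) (_ : Ring S) (σ : R →+* R) (δ : R →+ R)
    (ι : R →+* S) (x : S), (∀ r s, δ (r * s) = δ r * s + σ r * δ s) ∧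
    (∀ r, x * ι r = ι (σ r) * x + ι (δ r)) ∧
    Bijective (fun p : ℕ →₀ R => p.sum fun i r => ι r * x ^ i) ∧
    Surjective σ ∧ LSRC S ∧ ¬ LSRC R := by
  refine ⟨F, S, inferInstance, inferInstance, sg.toRingHom, 0, io, xx, by simp, fun r => ?_, ?_,
    sg_surj, yesS, notF⟩
  · simpa using xx_io r 1
  · have : (fun p : ℕ →₀ F => p.sum fun i r => io r * xx ^ i) = fun p =>
        SkewMonoidAlgebra.coeffAddEquiv.symm (Finsupp.domCongr Multiplicative.ofAdd p) := by
      ext1 p
      induction p using Finsupp.induction_linear with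
      | zero => simp
      | add a b h1 h2 =>
        rw [Finsupp.sum_add_index' (by simp) (by simp [add_mul]), h1, h2, map_add, map_add]
      | single a r => simp [io_xx]
    rw [this]
    exact SkewMonoidAlgebra.coeffAddEquiv.symm.bijective.comp (Finsupp.domCongr _).bijective

end Pool.Agent.Results.MP_5f6a82_al.Neg
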